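import Pool.Agent.R623.I.OC

/-!
# An introreducible set which is not finitely decomposable

For a real `X` let `A X` be the set of all (codes of) finite nonempty lists of words of the same
length, one of which is an initial segment of `X`, such that all the words agree with `X` up to
the length of the list.  An infinite subset of `A X` computes `X`: if it contains arbitrarily long
lists, the beginnings of their words are initial segments of `X`; otherwise infinitely many lists
have the same number `K` of words, at most `K` reals are consistent with all of them, and `X` is an
isolated point of the class of these reals.  If `A X` were finitely decomposable for uncountably
many `X`, the same operators `Φ_0, ..., Φ_n` would work for `n + 2` distinct reals with the same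
initial segment of length `n + 2`, and the lists of the initial segments of these reals belong to
all the corresponding sets; two of these sets would be computed by the same `Φ_j` from the same
infinite set of lists.
-/

set_option autoImplicit false

namespace Pool.Agent.Results.MP_76bd4c_lc.NotDecomposable

open Pool.Agent.R623.Intro

/-- `A` is a finite union of sets `D 0, ..., D n` such that, for each `i`, one program computes
`A` from every infinite subset of `D i`. -/
def FinitelyDecomposable (A : Set ℕ) : Prop :=
  ∃ (n : ℕ) (D : Fin (n + 1) → Set ℕ), A = ⋃ i, D i ∧ ∀ i, UniformlyReducible A (D i)

/-- **Positive answer to Q1.** There is an introreducible set which is not finitely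
decomposable. -/
theorem result : ∃ A : Set ℕ, Introreducible A ∧ ¬ FinitelyDecomposable A := by
  have h1 := countable_dcp (fun (c : OCode) (C B : Set ℕ) => c.eval (char C) = char B)
    (fun c C B B' h h' => char_injective (h.symm.trans h'))
  obtain ⟨X, hX⟩ := exists_not_mem h1
  exact ⟨_, introreducible_A X, hX⟩

end Pool.Agent.Results.MP_76bd4c_lc.NotDecomposable
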